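import Mathlib

set_option autoImplicit false

namespace Pool.Agent.H.MP_b4625f_gt

open Set Real Filter Topology

lemma prim {c : ℝ → ℝ} (hc : Continuous c) (t : ℝ) :
    HasDerivAt (fun s => ∫ x in (0:ℝ)..s, c x) (c t) t :=
  (hc.integral_hasStrictDerivAt 0 t).hasDerivAt

lemma weigh {f c g : ℝ → ℝ} (hc : Continuous c) (hf : ∀ t, HasDerivAt f (c t * f t + g t) t)
    (t : ℝ) : HasDerivAt (fun s => f s * exp (-∫ x in (0:ℝ)..s, c x))
      (g t * exp (-∫ x in (0:ℝ)..t, c x)) t := by
  refine ((hf t).mul (prim hc t).neg.exp).congr_deriv ?_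
  simp only [Pi.neg_apply]; ring

lemma lin {f c : ℝ → ℝ} (hc : Continuous c) (hf : ∀ t, HasDerivAt f (c t * f t) t) (t : ℝ) :
    f t * exp (-∫ x in (0:ℝ)..t, c x) = f 0 := by
  have h := weigh (g := fun _ => 0) hc (fun t => by simpa using hf t)
  have := is_const_of_deriv_eq_zero (fun t => (h t).differentiableAt)
    (fun t => by rw [(h t).deriv]; simp) t 0
  simpa using this

structure Track (X Y v φ κ : ℝ → ℝ) (L : ℝ) : Prop where
  Lpos : 0 < L
  hX : ∀ t, HasDerivAt X (v t * cos (φ t)) t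
  hY : ∀ t, HasDerivAt Y (v t * sin (φ t)) t
  hφ : ∀ t, HasDerivAt φ (κ t) t
  cv : Continuous v
  cκ : Continuous κ
  vpos : ∀ t, 0 < v t
  κ0 : ∀ t, 0 ≤ κ t
  mono : StrictMono φ
  pφ : ∀ t, φ (t + L) = φ t + 2 * π
  pv : ∀ t, v (t + L) = v t
  pX : ∀ t, X (t + L) = X t
  pY : ∀ t, Y (t + L) = Y t

lemma mkTrack {X Y : ℝ → ℝ} {L : ℝ} (hL : 0 < L) (hX : ContDiff ℝ 2 X) (hY : ContDiff ℝ 2 Y)
    (reg : ∀ t, 0 < deriv X t ^ 2 + deriv Y t ^ 2)
    (pX : Function.Periodic X L) (pY : Function.Periodic Y L)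
    (cvx : ∀ t s, t < s → s < t + L → 0 < deriv X t * (Y s - Y t) - deriv Y t * (X s - X t)) :
    ∃ v φ κ, Track X Y v φ κ L := by
  have dX : ∀ t, HasDerivAt X (deriv X t) t :=
    fun t => (hX.differentiable (by norm_num) t).hasDerivAt
  have dY : ∀ t, HasDerivAt Y (deriv Y t) t :=
    fun t => (hY.differentiable (by norm_num) t).hasDerivAt
  have hX1 : ContDiff ℝ 1 (deriv X) := hX.deriv'
  have hY1 : ContDiff ℝ 1 (deriv Y) := hY.deriv'
  have ddX : ∀ t, HasDerivAt (deriv X) (deriv (deriv X) t) t :=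
    fun t => (hX1.differentiable (by norm_num) t).hasDerivAt
  have ddY : ∀ t, HasDerivAt (deriv Y) (deriv (deriv Y) t) t :=
    fun t => (hY1.differentiable (by norm_num) t).hasDerivAt
  have c1 := hX1.continuous
  have c2 := hY1.continuous
  have c3 := hX1.continuous_deriv le_rfl
  have c4 := hY1.continuous_deriv le_rfl
  have pX' : ∀ t, deriv X (t + L) = deriv X t := fun t => by
    rw [← deriv_comp_add_const]; congr 1; exact funext pX
  have pY' : ∀ t, deriv Y (t + L) = deriv Y t := fun t => by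
    rw [← deriv_comp_add_const]; congr 1; exact funext pY
  generalize deriv (deriv X) = P' at *
  generalize deriv (deriv Y) = Q' at *
  generalize deriv X = P at *
  generalize deriv Y = Q at *
  set κ : ℝ → ℝ := fun t => (P t * Q' t - Q t * P' t) / (P t ^ 2 + Q t ^ 2) with hκ
  set l : ℝ → ℝ := fun t => (P t * P' t + Q t * Q' t) / (P t ^ 2 + Q t ^ 2) with hl
  have cκ : Continuous κ := Continuous.div (by fun_prop) (by fun_prop) fun t => (reg t).ne'
  have cl : Continuous l := Continuous.div (by fun_prop) (by fun_prop) fun t => (reg t).ne'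
  have eP : ∀ t, P' t = l t * P t - κ t * Q t := fun t => by
    have := (reg t).ne'
    simp only [hκ, hl]; field_simp; ring
  have eQ : ∀ t, Q' t = l t * Q t + κ t * P t := fun t => by
    have := (reg t).ne'
    simp only [hκ, hl]; field_simp; ring
  set φ : ℝ → ℝ := fun t => Complex.arg ⟨P 0, Q 0⟩ + ∫ x in (0:ℝ)..t, κ x with hφ
  have dφ : ∀ t, HasDerivAt φ (κ t) t := fun t => (prim cκ t).const_add _
  have cφ : Continuous φ := continuous_iff_continuousAt.2 fun t => (dφ t).continuousAt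
  set v : ℝ → ℝ := fun t => P t * cos (φ t) + Q t * sin (φ t) with hv
  set w : ℝ → ℝ := fun t => Q t * cos (φ t) - P t * sin (φ t) with hw
  have dv : ∀ t, HasDerivAt v (l t * v t) t := fun t => by
    refine (((ddX t).mul (dφ t).cos).add ((ddY t).mul (dφ t).sin)).congr_deriv ?_
    simp only [hv]; rw [eP, eQ]; ring
  have dw : ∀ t, HasDerivAt w (l t * w t) t := fun t => by
    refine (((ddY t).mul (dφ t).cos).sub ((ddX t).mul (dφ t).sin)).congr_deriv ?_
    simp only [hw]; rw [eP, eQ]; ring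
  have n1 := Complex.norm_mul_cos_arg (⟨P 0, Q 0⟩ : ℂ)
  have n2 := Complex.norm_mul_sin_arg (⟨P 0, Q 0⟩ : ℂ)
  simp only at n1 n2
  have φ0 : φ 0 = Complex.arg ⟨P 0, Q 0⟩ := by simp [hφ]
  have n0 : 0 < ‖(⟨P 0, Q 0⟩ : ℂ)‖ := norm_pos_iff.2 fun h => by
    have h1 := congrArg Complex.re h
    have h2 := congrArg Complex.im h
    simp only [Complex.zero_re, Complex.zero_im] at h1 h2
    have := reg 0
    rw [h1, h2] at this; simp at this
  have w0 : ∀ t, w t = 0 := fun t => by
    have h := lin cl dw t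
    have : w 0 = 0 := by
      simp only [hw, φ0]
      linear_combination (-cos (Complex.arg ⟨P 0, Q 0⟩)) * n2 + sin (Complex.arg ⟨P 0, Q 0⟩) * n1
    rw [this] at h
    simpa using h
  have v0 : ∀ t, 0 < v t := fun t => by
    have h := lin cl dv t
    have : v 0 = ‖(⟨P 0, Q 0⟩ : ℂ)‖ := by
      simp only [hv, φ0]
      linear_combination (-cos (Complex.arg ⟨P 0, Q 0⟩)) * n1 - sin (Complex.arg ⟨P 0, Q 0⟩) * n2
        + ‖(⟨P 0, Q 0⟩ : ℂ)‖ * sin_sq_add_cos_sq (Complex.arg ⟨P 0, Q 0⟩)
    rw [this] at h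
    exact (mul_pos_iff_of_pos_right (exp_pos _)).1 (h ▸ n0)
  have hP : ∀ t, P t = v t * cos (φ t) := fun t => by
    have := w0 t
    simp only [hv, hw] at *
    linear_combination (-sin (φ t)) * this - P t * sin_sq_add_cos_sq (φ t)
  have hQ : ∀ t, Q t = v t * sin (φ t) := fun t => by
    have := w0 t
    simp only [hv, hw] at *
    linear_combination (cos (φ t)) * this - Q t * sin_sq_add_cos_sq (φ t)
  have κ0 : ∀ t, 0 ≤ κ t := fun t => by
    apply div_nonneg _ (reg t).le
    by_contra hc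
    push Not at hc
    have d1 : ∀ s, HasDerivAt (fun s => P t * (Y s - Y t) - Q t * (X s - X t))
        (P t * Q s - Q t * P s) s := fun s =>
      (((dY s).sub_const _).const_mul _).sub (((dX s).sub_const _).const_mul _)
    have d1' : deriv (fun s => P t * (Y s - Y t) - Q t * (X s - X t))
        = fun s => P t * Q s - Q t * P s := funext fun s => (d1 s).deriv
    have d2 : HasDerivAt (fun s => P t * Q s - Q t * P s) (P t * Q' t - Q t * P' t) t :=
      ((ddY t).const_mul _).sub ((ddX t).const_mul _)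
    have := isLocalMax_of_deriv_deriv_neg (f := fun s => P t * (Y s - Y t) - Q t * (X s - X t))
      (x₀ := t) (by rw [d1', d2.deriv]; exact hc) (by rw [d1']; ring) (d1 t).continuousAt
    obtain ⟨s, h1, h2⟩ := ((this.filter_mono nhdsWithin_le_nhds).and
      (Ioo_mem_nhdsGT (show t < t + L by linarith))).exists
    have := cvx t s h2.1 h2.2
    simp only [sub_self, mul_zero] at h1
    linarith
  have mono : Monotone φ := monotone_of_deriv_nonneg (fun t => (dφ t).differentiableAt)
    fun t => by rw [(dφ t).deriv]; exact κ0 t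
  have noeq : ∀ t s, t < s → s < t + L → ∀ j : ℤ, φ s ≠ φ t + j * (2 * π) := by
    intro t s h1 h2 j e
    have a1 := cvx t s h1 h2
    have a2 := cvx s (t + L) h2 (by linarith)
    rw [pX, pY, hP, hQ, e, cos_add_int_mul_two_pi, sin_add_int_mul_two_pi] at a2
    rw [hP, hQ] at a1
    nlinarith [mul_pos (v0 s) a1, mul_pos (v0 t) a2]
  have pv : ∀ t, v (t + L) = v t := fun t => by
    have a1 := pX' t
    have a2 := pY' t
    rw [hP, hP t] at a1
    rw [hQ, hQ t] at a2
    have : v (t + L) ^ 2 = v t ^ 2 := by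
      linear_combination (v (t + L) * cos (φ (t + L)) + v t * cos (φ t)) * a1
        + (v (t + L) * sin (φ (t + L)) + v t * sin (φ t)) * a2
        - v (t + L) ^ 2 * sin_sq_add_cos_sq (φ (t + L)) + v t ^ 2 * sin_sq_add_cos_sq (φ t)
    exact (pow_left_inj₀ (v0 _).le (v0 _).le two_ne_zero).1 this
  have lt : ∀ t s, t < s → s < t + L → φ t < φ s := fun t s h1 h2 =>
    lt_of_le_of_ne (mono h1.le) fun e => noeq t s h1 h2 0 (by simp [e])
  refine ⟨v, φ, κ, hL, fun t => hP t ▸ dX t, fun t => hQ t ▸ dY t, dφ, by fun_prop, cκ, v0, κ0,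
    fun a b hab => ?_, fun t => ?_, pv, pX, pY⟩
  · refine (lt a (min b (a + L / 2)) (lt_min hab (by linarith)) ?_).trans_le
      (mono (min_le_left _ _))
    linarith [min_le_right b (a + L / 2)]
  · have a1 := pX' t
    have a2 := pY' t
    rw [hP, hP t, pv] at a1
    rw [hQ, hQ t, pv] at a2
    have a3 := mul_left_cancel₀ (v0 t).ne' a1
    have a4 := mul_left_cancel₀ (v0 t).ne' a2
    have : cos (φ (t + L) - φ t) = 1 := by
      rw [cos_sub, a3, a4]; linear_combination sin_sq_add_cos_sq (φ t)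
    obtain ⟨j, hj⟩ := (cos_eq_one_iff _).1 this
    have b1 : φ t < φ (t + L) :=
      (lt t (t + L / 2) (by linarith) (by linarith)).trans_le (mono (by linarith))
    have j0 : (0:ℝ) < j := by
      by_contra h
      push Not at h
      nlinarith [pi_pos]
    have j1 : (1:ℝ) ≤ j := by exact_mod_cast (show (1:ℤ) ≤ j by exact_mod_cast j0)
    rcases j1.eq_or_lt with h | h
    · rw [← h] at hj; linarith
    · exfalso
      obtain ⟨s, hs, e⟩ := intermediate_value_Ioo (show t ≤ t + L by linarith)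
        cφ.continuousOn (show φ t + 2 * π ∈ Ioo (φ t) (φ (t + L)) from
          ⟨by linarith [pi_pos], by nlinarith [pi_pos]⟩)
      exact noeq t s hs.1 hs.2 1 (by simp [e])

end Pool.Agent.H.MP_b4625f_gt
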