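import Pool.Agent.H.MP_b4625f_gt.A

set_option autoImplicit false

namespace Pool.Agent.H.MP_b4625f_gt

open Set Real Filter Topology

lemma sin_sinc (x : ℝ) : sin x = sinc x * x := by
  by_cases h : x = 0
  · simp [h]
  · rw [sinc_of_ne_zero h]; field_simp

lemma sin_diff (a b : ℝ) : sin a - sin b = sinc ((a - b) / 2) * cos ((a + b) / 2) * (a - b) := by
  rw [sin_sub_sin, sin_sinc ((a - b) / 2)]; ring

lemma cont_of {f f' : ℝ → ℝ} (h : ∀ t, HasDerivAt f (f' t) t) : Continuous f :=
  continuous_iff_continuousAt.2 fun t => (h t).continuousAt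

def Sol (v φ : ℝ → ℝ) (l : ℝ) (θ : ℝ → ℝ) : Prop :=
  ∀ t, HasDerivAt θ (v t * sin (θ t - φ t) / l) t

variable {X Y v φ κ : ℝ → ℝ} {L : ℝ} (T : Track X Y v φ κ L) {l : ℝ} {θ : ℝ → ℝ}
include T

lemma sol_ratio {η : ℝ → ℝ} (h1 : Sol v φ l θ) (h2 : Sol v φ l η) (t : ℝ) :
    ∃ e > 0, (θ t - η t) * e = θ 0 - η 0 := by
  have c1 := cont_of h1
  have c2 := cont_of h2
  have c3 := cont_of T.hφ
  have c4 := T.cv
  have c5 := continuous_sinc
  refine ⟨_, exp_pos _, lin (f := fun t => θ t - η t) (c := fun t => v t / l *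
    (sinc ((θ t - η t) / 2) * cos ((θ t - φ t + (η t - φ t)) / 2))) (by fun_prop) (fun t => ?_) t⟩
  refine ((h1 t).sub (h2 t)).congr_deriv ?_
  have := sin_diff (θ t - φ t) (η t - φ t)
  rw [show θ t - φ t - (η t - φ t) = θ t - η t by ring] at this
  linear_combination (v t / l) * this

lemma sol_per (h : Sol v φ l θ) {m : ℤ} (hm : θ L = θ 0 + m * (2 * π)) (t : ℝ) :
    θ (t + L) = θ t + m * (2 * π) := by
  have h1 : Sol v φ l fun t => θ (t + L) := fun t => by
    have := (h (t + L)).comp_add_const t L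
    rwa [T.pv, T.pφ, ← sub_sub, sin_sub_two_pi] at this
  have h2 : Sol v φ l fun t => θ t + m * (2 * π) := fun t => by
    have := (h t).add_const (m * (2 * π))
    simp only
    rwa [add_sub_right_comm, sin_add_int_mul_two_pi]
  obtain ⟨e, he, h3⟩ := sol_ratio T h1 h2 t
  simp only [zero_add, hm, sub_self] at h3
  linarith [(mul_eq_zero.1 h3).resolve_right he.ne']

lemma cross (h : Sol v φ l θ) (k : ℤ) {s t : ℝ} (hst : s < t) (hs : θ s - φ s ≤ k * π) :
    θ t - φ t < k * π := by
  have c1 := cont_of h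
  have c3 := cont_of T.hφ
  have c4 := T.cv
  have c5 := continuous_sinc
  have d := weigh (f := fun t => θ t - φ t - k * π) (g := fun t => -κ t)
    (c := fun t => v t / l * ((-1) ^ k * sinc (θ t - φ t - k * π))) (by fun_prop) (fun t => by
      refine (((h t).sub (T.hφ t)).sub_const _).congr_deriv ?_
      have := sin_add_int_mul_pi (θ t - φ t - k * π) k
      rw [sub_add_cancel, sin_sinc (θ t - φ t - k * π)] at this
      rw [this]; ring)
  generalize hC : (fun s => exp (-∫ x in (0:ℝ)..s,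
    v x / l * ((-1) ^ k * sinc (θ x - φ x - k * π)))) = E at d
  have hE : ∀ s, 0 < E s := fun s => by rw [← hC]; exact exp_pos _
  have d' : ∀ t, HasDerivAt (fun s => (θ s - φ s - k * π) * E s) (-κ t * E t) t := by
    rw [← hC]; exact d
  have anti : Antitone fun s => (θ s - φ s - k * π) * E s :=
    antitone_of_deriv_nonpos (fun t => (d' t).differentiableAt) fun t => by
      rw [(d' t).deriv]; nlinarith [T.κ0 t, hE t]
  by_contra hc
  push Not at hc
  have g1 : (θ s - φ s - k * π) * E s ≤ 0 := mul_nonpos_of_nonpos_of_nonneg (by linarith) (hE s).le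
  have g2 : 0 ≤ (θ t - φ t - k * π) * E t := mul_nonneg (by linarith) (hE t).le
  obtain ⟨x, hx, e⟩ := exists_hasDerivAt_eq_slope φ κ hst c3.continuousOn fun x _ => T.hφ x
  have z : -κ x * E x = 0 := by
    refine (d' x).unique ((hasDerivAt_const x (0:ℝ)).congr_of_eventuallyEq ?_)
    filter_upwards [Ioo_mem_nhds hx.1 hx.2] with y hy
    exact le_antisymm ((anti hy.1.le).trans g1) (g2.trans (anti hy.2.le))
  have : κ x = 0 := by linarith [(mul_eq_zero.1 z).resolve_right (hE x).ne']
  rw [this, eq_comm, div_eq_zero_iff] at e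
  rcases e with e | e
  · linarith [T.mono hst]
  · linarith

lemma zero_case (hl : 0 < l) (h : Sol v φ l θ) (hp : ∀ t, θ (t + L) = θ t) {a b : ℝ}
    (hab : a < b) (hbc : b < a + L) (ha : θ a - φ a = π) (hb : θ b - φ b = 0)
    (up : StrictMonoOn θ (Icc a b)) (dn : StrictAntiOn θ (Icc b (a + L))) : False := by
  have cθ := cont_of h
  have cφ := cont_of T.hφ
  have hL := T.Lpos
  have surj : Function.Surjective φ := by
    have hn : ∀ n : ℤ, φ (n * L) = φ 0 + n * (2 * π) := by
      have : Function.Periodic (fun t => φ t - t / L * (2 * π)) L := fun t => by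
        simp only [T.pφ]; field_simp; ring
      intro n
      have := this.int_mul n 0
      simp only [zero_add, zero_div, zero_mul, sub_zero] at this
      rw [mul_div_cancel_right₀ _ hL.ne'] at this; linarith
    intro y
    obtain ⟨N, hN⟩ := exists_nat_ge |y - φ 0|
    have h1 := abs_le.1 hN
    have h2 : (0:ℝ) ≤ N := Nat.cast_nonneg N
    refine intermediate_value_univ (((-N : ℤ) : ℝ) * L) (((N : ℤ) : ℝ) * L) cφ ?_
    rw [hn, hn]; push_cast
    constructor <;> nlinarith [pi_gt_three]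
  set ι := (T.mono.orderIsoOfSurjective φ surj).symm with hι
  have φι : ∀ y, φ (ι y) = y := fun y => T.mono.orderIsoOfSurjective_self_symm_apply φ surj y
  have cι : Continuous ι := ι.continuous
  have φa := T.pφ a
  obtain ⟨t1, t2, h1, h2, h3, h4⟩ : ∃ t1 t2, a ≤ t1 ∧ t2 ≤ a + L ∧ φ t2 = φ t1 + π ∧
      θ t1 = θ t2 := by
    have e1 : ι (φ a) = a := T.mono.injective (φι _)
    have e2 : ι (φ a + π + π) = a + L := T.mono.injective (by rw [φι, φa]; ring)
    have : (0:ℝ) ∈ uIcc (θ (ι (φ a + π)) - θ (ι (φ a))) (θ (ι (φ a + π + π)) - θ (ι (φ a + π))) := by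
      rw [e1, e2, hp, mem_uIcc]
      rcases le_total (θ (ι (φ a + π))) (θ a) with q | q
      · left; constructor <;> linarith
      · right; constructor <;> linarith
    obtain ⟨y, hy, e⟩ := intermediate_value_uIcc (f := fun y => θ (ι (y + π)) - θ (ι y))
      (a := φ a) (b := φ a + π) (by fun_prop) this
    rw [uIcc_of_le (by linarith [pi_pos])] at hy
    refine ⟨ι y, ι (y + π), T.mono.le_iff_le.1 (by rw [φι]; exact hy.1),
      T.mono.le_iff_le.1 (by rw [φι, φa]; linarith [hy.2]), by rw [φι, φι], by linarith⟩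
  have h12 : t1 < t2 := T.mono.lt_iff_lt.1 (by linarith [pi_pos])
  have h1b : t1 < b := by
    by_contra q
    push Not at q
    linarith [dn ⟨q, by linarith⟩ ⟨by linarith, h2⟩ h12]
  have h2b : b < t2 := by
    by_contra q
    push Not at q
    linarith [up ⟨h1, by linarith⟩ ⟨by linarith, q⟩ h12]
  have θc := hp a
  have h1a : a < t1 := by
    refine lt_of_le_of_ne h1 fun q => ?_
    have : t2 < a + L := T.mono.lt_iff_lt.1 (by rw [h3, φa, ← q]; linarith [pi_pos])
    have := dn ⟨h2b.le, h2⟩ ⟨hbc.le, le_rfl⟩ this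
    rw [← q] at h4; linarith
  have h2c : t2 < a + L := by
    refine lt_of_le_of_ne h2 fun q => ?_
    have := up ⟨le_rfl, hab.le⟩ ⟨h1, h1b.le⟩ h1a
    rw [q] at h4; linarith
  have q1 := T.mono h2b
  have q2 := T.mono h2c
  have q3 := T.mono h1a
  have rng : ∀ t ∈ Icc a (a + L), 0 < θ t - φ t1 ∧ θ t - φ t1 < π := by
    intro t ht
    rcases le_total t b with q | q
    · have r1 := up.monotoneOn ⟨le_rfl, hab.le⟩ ⟨ht.1, q⟩ ht.1
      have r2 := up.monotoneOn ⟨ht.1, q⟩ ⟨hab.le, le_rfl⟩ q
      constructor <;> linarith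
    · have r1 := dn.antitoneOn ⟨q, ht.2⟩ ⟨hbc.le, le_rfl⟩ ht.2
      have r2 := dn.antitoneOn ⟨le_rfl, hbc.le⟩ ⟨q, ht.2⟩ q
      constructor <;> linarith
  set p := φ t1 with hp1
  set s := θ t1 - p with hs
  have s0 : 0 < sin s := sin_pos_of_pos_of_lt_pi (rng t1 ⟨h1, by linarith⟩).1
    (rng t1 ⟨h1, by linarith⟩).2
  set F : ℝ → ℝ := fun t => l * (log (1 - cos (θ t - p)) - log (sin (θ t - p)))
    - (X t * cos p + Y t * sin p) + cos s / sin s * (Y t * cos p - X t * sin p) with hF
  have dF : ∀ t ∈ Icc a (a + L), HasDerivAt F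
      (v t * (sin (θ t - θ t1) * sin (φ t - p)) / (sin s * sin (θ t - p))) t := by
    intro t ht
    have r := rng t ht
    have r1 : 0 < sin (θ t - p) := sin_pos_of_pos_of_lt_pi r.1 r.2
    have r2 : 0 < 1 - cos (θ t - p) := by
      have := cos_lt_cos_of_nonneg_of_le_pi le_rfl r.2.le r.1
      rw [cos_zero] at this; linarith
    have d1 := (h t).sub_const p
    refine ((((((d1.cos.const_sub 1).log r2.ne').sub (d1.sin.log r1.ne')).const_mul l).sub
      (((T.hX t).mul_const _).add ((T.hY t).mul_const _))).add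
      ((((T.hY t).mul_const _).sub ((T.hX t).mul_const _)).const_mul _)).congr_deriv ?_
    have e1 : θ t - φ t = (θ t - p) - (φ t - p) := by ring
    have e2 : θ t - θ t1 = (θ t - p) - s := by rw [hs]; ring
    have e3 : cos (φ t) * cos p + sin (φ t) * sin p = cos (φ t - p) := (cos_sub _ _).symm
    have e4 : sin (φ t) * cos p - cos (φ t) * sin p = sin (φ t - p) := (sin_sub _ _).symm
    rw [e1, e2, sin_sub (θ t - p), sin_sub (θ t - p)]
    have e5 := sin_sq_add_cos_sq (θ t - p)
    generalize θ t - p = u at *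
    have e6 : sin u / (1 - cos u) - cos u / sin u = 1 / sin u := by
      field_simp; linear_combination e5
    have e7 : l * (-(-sin u * (v t * (sin u * cos (φ t - p) - cos u * sin (φ t - p)) / l))
        / (1 - cos u) - cos u * (v t * (sin u * cos (φ t - p) - cos u * sin (φ t - p)) / l) / sin u)
        = v t * (sin u * cos (φ t - p) - cos u * sin (φ t - p))
          * (sin u / (1 - cos u) - cos u / sin u) := by field_simp
    rw [e7, e6, ← e3, ← e4]
    field_simp
    ring
  have cF : ContinuousOn F (Icc a (a + L)) := fun t ht => (dF t ht).continuousAt.continuousWithinAt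
  have inc : ∀ x y, a ≤ x → y ≤ a + L → x < y →
      (∀ t ∈ Ioo x y, 0 < sin (θ t - θ t1) * sin (φ t - p)) → F x < F y := by
    intro x y hx hy hxy hpos
    refine strictMonoOn_of_deriv_pos (convex_Icc x y) (cF.mono (Icc_subset_Icc hx hy)) ?_
      ⟨le_rfl, hxy.le⟩ ⟨hxy.le, le_rfl⟩ hxy
    intro t ht
    rw [interior_Icc] at ht
    have m : t ∈ Icc a (a + L) := ⟨by linarith [ht.1], by linarith [ht.2]⟩
    rw [(dF t m).deriv]
    exact div_pos (mul_pos (T.vpos t) (hpos t ht))
      (mul_pos s0 (sin_pos_of_pos_of_lt_pi (rng t m).1 (rng t m).2))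
  have r1 := rng t1 ⟨h1, by linarith⟩
  have i1 : F a < F t1 := inc _ _ le_rfl (by linarith) h1a fun t ht => by
    have r := rng t ⟨ht.1.le, by linarith [ht.2]⟩
    have := up ⟨ht.1.le, by linarith [ht.2]⟩ ⟨h1, h1b.le⟩ ht.2
    have a1 := T.mono ht.1
    have a2 := T.mono ht.2
    exact mul_pos_of_neg_of_neg (sin_neg_of_neg_of_neg_pi_lt (by linarith) (by linarith))
      (sin_neg_of_neg_of_neg_pi_lt (by linarith) (by linarith))
  have i2 : F t1 < F t2 := inc _ _ h1 h2 h12 fun t ht => by
    have r := rng t ⟨by linarith [ht.1], by linarith [ht.2]⟩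
    have : θ t1 < θ t := by
      rcases le_total t b with q | q
      · exact up ⟨h1, h1b.le⟩ ⟨by linarith [ht.1], q⟩ ht.1
      · rw [h4]; exact dn ⟨q, by linarith [ht.2]⟩ ⟨h2b.le, h2⟩ ht.2
    have a1 := T.mono ht.1
    have a2 := T.mono ht.2
    exact mul_pos (sin_pos_of_pos_of_lt_pi (by linarith) (by linarith))
      (sin_pos_of_pos_of_lt_pi (by linarith) (by linarith))
  have i3 : F t2 < F (a + L) := inc _ _ (by linarith) le_rfl h2c fun t ht => by
    have r := rng t ⟨by linarith [ht.1], ht.2.le⟩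
    have := dn ⟨h2b.le, h2⟩ ⟨by linarith [ht.1], ht.2.le⟩ ht.1
    have a1 := T.mono ht.1
    have a2 := T.mono ht.2
    refine mul_pos_of_neg_of_neg (sin_neg_of_neg_of_neg_pi_lt (by linarith) (by linarith)) ?_
    rw [← sin_sub_two_pi]
    exact sin_neg_of_neg_of_neg_pi_lt (by linarith) (by linarith)
  have : F (a + L) = F a := by simp only [hF, θc, T.pX, T.pY]
  linarith

theorem rot (hl : 0 < l) (h : Sol v φ l θ) {m : ℤ} (hm : θ L = θ 0 + m * (2 * π)) : m = 1 := by
  have hp := sol_per T h hm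
  have hL := T.Lpos
  have cθ := cont_of h
  have cφ := cont_of T.hφ
  have hπ := pi_pos
  have p0 := T.pφ 0
  rw [zero_add] at p0
  have up : m ≤ 1 := by
    by_contra hc
    have h2 : (2:ℝ) ≤ m := by exact_mod_cast (show (2:ℤ) ≤ m by omega)
    have h3 := Int.le_ceil ((θ 0 - φ 0) / π)
    have h4 := Int.ceil_lt_add_one ((θ 0 - φ 0) / π)
    rw [div_le_iff₀ hπ] at h3
    rw [← sub_lt_iff_lt_add, lt_div_iff₀ hπ] at h4
    have := cross T h _ hL h3
    nlinarith
  by_contra hne
  have m0 : (m:ℝ) ≤ 0 := by exact_mod_cast (show m ≤ 0 by omega)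
  have hn : ∀ n : ℤ, θ (n * L) - φ (n * L) = θ 0 - φ 0 + n * ((m - 1) * (2 * π)) := by
    have : Function.Periodic (fun t => θ t - φ t - t / L * ((m - 1) * (2 * π))) L := fun t => by
      simp only [T.pφ, hp]; field_simp; ring
    intro n
    have := this.int_mul n 0
    simp only [zero_add, zero_div, zero_mul, sub_zero] at this
    rw [mul_div_cancel_right₀ _ hL.ne'] at this; linarith
  have ex : ∀ k : ℤ, ∃ t, θ t - φ t = k * π := by
    intro k
    obtain ⟨N, hN⟩ := exists_nat_ge |k * π - (θ 0 - φ 0)|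
    have h1 := abs_le.1 hN
    have h2 : (0:ℝ) ≤ N := Nat.cast_nonneg N
    have h3 : (m - 1) * (2 * π) ≤ -1 := by nlinarith [pi_gt_three]
    refine intermediate_value_univ (f := fun t => θ t - φ t) (((N : ℤ) : ℝ) * L)
      (((-N : ℤ) : ℝ) * L) (by fun_prop) ?_
    simp only [hn]; push_cast
    constructor <;> nlinarith
  choose τ hτ using ex
  have aft : ∀ k t, τ k < t → θ t - φ t < k * π := fun k t ht => cross T h k ht (hτ k).le
  have bef : ∀ k t, t < τ k → k * π < θ t - φ t := fun k t ht => by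
    by_contra q
    push Not at q
    linarith [cross T h k ht q, hτ k]
  have lt : ∀ k, τ k < τ (k - 1) := fun k => by
    by_contra q
    push Not at q
    have e := hτ (k - 1)
    push_cast at e
    rcases q.eq_or_lt with q | q
    · rw [q, hτ] at e; linarith
    · linarith [bef k _ q]
  have inc : ∀ j : ℤ, StrictMonoOn θ (Icc (τ (1 - 2 * j)) (τ (1 - 2 * j - 1))) := fun j => by
    refine strictMonoOn_of_deriv_pos (convex_Icc _ _) cθ.continuousOn fun t ht => ?_
    rw [interior_Icc] at ht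
    have a1 := aft _ _ ht.1
    have a2 := bef _ _ ht.2
    push_cast at a1 a2
    rw [(h t).deriv, ← sin_add_int_mul_two_pi _ j]
    exact div_pos (mul_pos (T.vpos t) (sin_pos_of_pos_of_lt_pi (by linarith) (by linarith))) hl
  have step : ∀ j : ℤ, θ (τ (1 - 2 * j)) - π < θ (τ (1 - 2 * (j + 1))) := fun j => by
    have a1 := inc j ⟨le_rfl, (lt _).le⟩ ⟨(lt _).le, le_rfl⟩ (lt _)
    have a2 := T.mono (lt (1 - 2 * j - 1))
    have a3 := hτ (1 - 2 * j - 1)
    have a4 := hτ (1 - 2 * j - 1 - 1)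
    rw [show 1 - 2 * (j + 1) = 1 - 2 * j - 1 - 1 by ring]
    push_cast at a3 a4
    linarith
  have ind : ∀ j : ℕ, θ (τ 1) - (j + 1) * π < θ (τ (1 - 2 * (j + 1))) := by
    intro j
    induction j with
    | zero => simpa using step 0
    | succ j ih =>
      have := step (j + 1)
      push_cast; linarith
  have per : τ (1 - 2 * (1 - m)) = τ 1 + L := by
    have e : θ (τ 1 + L) - φ (τ 1 + L) = ((1 - 2 * (1 - m) : ℤ) : ℝ) * π := by
      have := hτ 1
      rw [hp, T.pφ]; push_cast at *; linarith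
    rcases lt_trichotomy (τ (1 - 2 * (1 - m))) (τ 1 + L) with q | q | q
    · linarith [aft _ _ q]
    · exact q
    · linarith [bef _ _ q]
  have mz : m = 0 := by
    have := ind (-m).toNat
    have e : (((-m).toNat : ℕ) : ℤ) = -m := Int.toNat_of_nonneg (by omega)
    have e' : (((-m).toNat : ℕ) : ℝ) = -m := by exact_mod_cast e
    rw [e, e', show -m + 1 = 1 - m by ring, per, hp] at this
    have : (-1:ℝ) < m := by nlinarith
    have : -1 < m := by exact_mod_cast this
    omega
  subst mz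
  have per' : τ (0 - 1) = τ 1 + L := by simpa using per
  refine zero_case T hl h (by simpa using hp) (a := τ 1) (b := τ 0) (by simpa using lt 1)
    (per' ▸ lt 0) (by simpa using hτ 1) (by simpa using hτ 0) (by simpa using inc 0) ?_
  rw [← per']
  refine strictAntiOn_of_deriv_neg (convex_Icc _ _) cθ.continuousOn fun t ht => ?_
  rw [interior_Icc] at ht
  have a1 := aft _ _ ht.1
  have a2 := bef _ _ ht.2
  push_cast at a1 a2
  rw [(h t).deriv]
  exact div_neg_of_neg_of_pos (mul_neg_of_pos_of_neg (T.vpos t)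
    (sin_neg_of_neg_of_neg_pi_lt (by linarith) (by linarith))) hl

end Pool.Agent.H.MP_b4625f_gt
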